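import Mathlib
import Pool.Agent.Lib.MP_dcdb0f_lc.Lower

/-!
# Few-pass streaming simulation of random walks: the answer to Q1 is negative

The model (`InputGraph`, `IsStream`, `walkLaw`, `StreamAlg`, `StreamAlg.run`,
`StreamAlg.Simulates`) is in `Pool.Agent.Lib.MP_dcdb0f_lc.Basic`.

Main theorem: every algorithm with `O(n (log (n + l)) ^ c)` bits of memory which simulates the
random walk of length `l ≥ n` from `v₀` in all `n`-vertex graphs makes at least
`min (l / n) n / (log (n + l)) ^ (c + 1)` passes (for all large `n`).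
For `l = n ^ 2` this is `n / (log (n + n ^ 2)) ^ (c + 1)`, which is not polylogarithmic.
-/

open MeasureTheory

namespace Pool.Agent.Lib.MP_dcdb0f_lc

/-- The random walks of length `l` from `v₀` can be simulated with `s` bits of memory and `p`
passes by some randomized streaming algorithm (which may depend on `n`, `l` and `v₀`). -/
def Simulable {n : ℕ} (l : ℕ) (v₀ : Fin n) (s p : ℕ) : Prop :=
  ∃ (Ω : Type) (_ : MeasurableSpace Ω) (P : Measure Ω) (_ : IsProbabilityMeasure P)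
    (A : StreamAlg n s Ω), A.Simulates P p l v₀

/-- Explicit pass-space tradeoff, for all values of the parameters. -/
theorem tradeoff {n s p l : ℕ} (v₀ : Fin n) (h : Simulable l v₀ s p) :
    3 * min l ((n / 4) ^ 2 / 24) ≤ 16 * (p * (s + 1)) + 44 := by
  obtain ⟨Ω, _, P, _, A, hA⟩ := h
  rcases Nat.eq_zero_or_pos (n / 4) with h0 | hm
  · simp [h0]
  · have hcard : Fintype.card (Vx (n / 4)) ≤ Fintype.card (Fin n) := by
      simp only [Fintype.card_prod, Fintype.card_bool, Fintype.card_fin]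
      omega
    obtain ⟨e₀⟩ := Function.Embedding.nonempty_of_card_le hcard
    set base : Vx (n / 4) := (false, ⟨0, hm⟩, false) with hbase
    set e : Vx (n / 4) ↪ Fin n := e₀.trans (Equiv.swap (e₀ base) v₀).toEmbedding with he
    have hb : e base = v₀ := by simp [he]
    rw [← hb] at hA
    have h24 : 24 * min l ((n / 4) ^ 2 / 24) ≤ (n / 4) ^ 2 := by
      have h1 : min l ((n / 4) ^ 2 / 24) ≤ (n / 4) ^ 2 / 24 := min_le_right _ _
      have h2 : (n / 4) ^ 2 / 24 * 24 ≤ (n / 4) ^ 2 := Nat.div_mul_le_self _ _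
      omega
    exact tradeoff_core P A e hm base (min_le_left _ _) h24 hA

end Pool.Agent.Lib.MP_dcdb0f_lc

open Pool.Agent.Lib.MP_dcdb0f_lc

/-- **Pass lower bound for semi-streaming simulation of random walks.** -/
theorem Pool.Agent.Results.MP_dcdb0f_lc.PassLowerBound.result (c C : ℕ) :
    ∃ N : ℕ, ∀ n ≥ N, ∀ l ≥ n, ∀ (v₀ : Fin n) (s p : ℕ),
      (s : ℝ) ≤ C * n * Real.log (n + l) ^ c →
      Simulable l v₀ s p →
      min ((l : ℝ) / n) n ≤ p * Real.log (n + l) ^ (c + 1) := by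
  refine ⟨max 44000 ⌈Real.exp (3200 * (C + 1))⌉₊, ?_⟩
  intro n hn l hl v₀ s p hs hsim
  have hn1 : 44000 ≤ n := le_trans (le_max_left _ _) hn
  have hn2 : Real.exp (3200 * (C + 1)) ≤ n :=
    (Nat.le_ceil _).trans (by exact_mod_cast le_trans (le_max_right _ _) hn)
  have hnpos : (0 : ℝ) < n := by positivity
  set L := Real.log (n + l) with hL
  have hL1 : 3200 * ((C : ℝ) + 1) ≤ L := by
    rw [hL, Real.le_log_iff_exp_le (by positivity)]
    have : (0 : ℝ) ≤ l := by positivity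
    linarith
  have hL0 : 1 ≤ L := by
    have : (0 : ℝ) ≤ C := by positivity
    linarith
  have h1 := tradeoff v₀ hsim
  -- the quantity min l n^2
  set k := min l ((n / 4) ^ 2 / 24) with hk
  have h2 : min (l : ℝ) ((n : ℝ) ^ 2) ≤ 500 * k := by
    have h3 : ((n : ℝ)) ^ 2 ≤ 500 * (((n / 4) ^ 2 / 24 : ℕ) : ℝ) := by
      have h4 : n ^ 2 ≤ 500 * ((n / 4) ^ 2 / 24) := by
        have h5 : n ≤ 4 * (n / 4) + 3 := by omega
        have h6 : (n / 4) ^ 2 ≤ 24 * ((n / 4) ^ 2 / 24) + 23 := by omega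
        have h7 : 11000 ≤ n / 4 := by omega
        have h8 : n ^ 2 ≤ (4 * (n / 4) + 3) ^ 2 := Nat.pow_le_pow_left h5 2
        nlinarith
      exact_mod_cast h4
    rw [hk]
    push_cast
    rw [mul_min_of_nonneg _ _ (by norm_num : (0:ℝ) ≤ 500)]
    apply min_le_min
    · have : (0 : ℝ) ≤ l := by positivity
      linarith
    · exact_mod_cast h3
  have h3 : (n : ℝ) ≤ min (l : ℝ) ((n : ℝ) ^ 2) := by
    apply le_min
    · exact_mod_cast hl
    · have : (1 : ℝ) ≤ n := by exact_mod_cast (by omega : 1 ≤ n)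
      nlinarith
  set M := min (l : ℝ) ((n : ℝ) ^ 2) with hM
  have h4 : 3 * (k : ℝ) ≤ 16 * (p * (s + 1)) + 44 := by exact_mod_cast h1
  have h5 : (44000 : ℝ) ≤ n := by exact_mod_cast hn1
  have h6 : M ≤ 3200 * (p * (s + 1)) := by linarith
  have hLc : 1 ≤ L ^ c := one_le_pow₀ hL0
  have h7 : (s : ℝ) + 1 ≤ (C + 1) * (n * L ^ c) := by
    have h8 : (1 : ℝ) ≤ n * L ^ c := by nlinarith
    nlinarith
  have hp : (0 : ℝ) ≤ p := by positivity
  have h8 : M ≤ (3200 * (C + 1)) * (p * (n * L ^ c)) := by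
    calc M ≤ 3200 * (p * (s + 1)) := h6
      _ ≤ 3200 * (p * ((C + 1) * (n * L ^ c))) := by gcongr
      _ = _ := by ring
  have h9 : M ≤ L * (p * (n * L ^ c)) := h8.trans (by gcongr)
  have h10 : min ((l : ℝ) / n) n = M / n := by
    have h11 : (n : ℝ) ^ 2 / n = n := by field_simp
    rw [hM, ← min_div_div_right hnpos.le, h11]
  rw [h10, div_le_iff₀ hnpos]
  calc M ≤ L * (p * (n * L ^ c)) := h9
    _ = _ := by ring

namespace Pool.Agent.Lib.MP_dcdb0f_lc

/-- The negated form of Q1, as a corollary: polylogarithmically many passes and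
`n * polylog` bits of memory do not suffice. -/
theorem not_polylog : ¬ ∃ c C N : ℕ, ∀ n ≥ N, ∀ (l : ℕ) (v₀ : Fin n), ∃ s p : ℕ,
    (s : ℝ) ≤ C * n * Real.log (n + l) ^ c ∧ (p : ℝ) ≤ C * Real.log (n + l) ^ c ∧
      Simulable l v₀ s p := by
  rintro ⟨c, C, N, h⟩
  obtain ⟨N', hN'⟩ := Pool.Agent.Results.MP_dcdb0f_lc.PassLowerBound.result c C
  -- for large `n` we have `C * (3 log n) ^ (2 c + 1) < n`
  have hlim : ∀ᶠ x : ℝ in Filter.atTop, C * (3 * Real.log x) ^ (2 * c + 1) < x := by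
    have h1 := (Real.isLittleO_pow_log_id_atTop (n := 2 * c + 1)).def
      (show (0 : ℝ) < 1 / (2 * (C + 1) * 3 ^ (2 * c + 1)) by positivity)
    filter_upwards [h1, Filter.eventually_gt_atTop (1 : ℝ)] with x hx hx1
    have hlog : 0 ≤ Real.log x := Real.log_nonneg hx1.le
    rw [Real.norm_of_nonneg (by positivity), id, Real.norm_of_nonneg (by linarith)] at hx
    have h3 : (0 : ℝ) < 3 ^ (2 * c + 1) := by positivity
    have hC : (0 : ℝ) ≤ C := by positivity
    calc C * (3 * Real.log x) ^ (2 * c + 1) = C * 3 ^ (2 * c + 1) * Real.log x ^ (2 * c + 1) := by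
          rw [mul_pow]; ring
      _ ≤ (C + 1) * 3 ^ (2 * c + 1) * (1 / (2 * (C + 1) * 3 ^ (2 * c + 1)) * x) := by
          gcongr
          linarith
      _ = x / 2 := by field_simp
      _ < x := by linarith
  obtain ⟨x₀, hx₀⟩ := Filter.eventually_atTop.mp hlim
  set n := max (max N N') (max ⌈x₀⌉₊ 3) with hn
  have hnN : N ≤ n := (le_max_left _ _).trans (le_max_left _ _)
  have hnN' : N' ≤ n := (le_max_right _ _).trans (le_max_left _ _)
  have hnx : x₀ ≤ n := (Nat.le_ceil _).trans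
    (by exact_mod_cast (le_max_left _ _).trans (le_max_right _ _))
  have hn3 : 3 ≤ n := (le_max_right _ _).trans (le_max_right _ _)
  have hn3' : (3 : ℝ) ≤ n := by exact_mod_cast hn3
  have hpos : 0 < n := by omega
  obtain ⟨s, p, hs, hp, hsim⟩ := h n hnN (n ^ 2) ⟨0, hpos⟩
  have h1 := hN' n hnN' (n ^ 2) (by nlinarith) ⟨0, hpos⟩ s p hs hsim
  have hnr : (0 : ℝ) < n := by positivity
  have h2 : min (((n ^ 2 : ℕ) : ℝ) / n) n = n := by
    push_cast
    rw [sq, mul_div_assoc, div_self hnr.ne', mul_one, min_self]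
  rw [h2] at h1
  set L := Real.log ((n : ℝ) + ((n ^ 2 : ℕ) : ℝ)) with hL
  have hL0 : 0 ≤ L := Real.log_nonneg (by push_cast; nlinarith)
  have hL3 : L ≤ 3 * Real.log n := by
    rw [hL, show (3 : ℝ) * Real.log n = Real.log ((n : ℝ) ^ 3) by rw [Real.log_pow]; norm_num]
    apply Real.log_le_log (by positivity)
    push_cast
    nlinarith [mul_pos hnr hnr]
  have h3 : (n : ℝ) ≤ C * (3 * Real.log n) ^ (2 * c + 1) := by
    calc (n : ℝ) ≤ p * L ^ (c + 1) := h1
      _ ≤ (C * L ^ c) * L ^ (c + 1) := by gcongr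
      _ = C * L ^ (2 * c + 1) := by ring
      _ ≤ _ := by gcongr
  exact absurd (hx₀ n hnx) (not_lt.mpr h3)

end Pool.Agent.Lib.MP_dcdb0f_lc
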